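import Pool.Agent.LKT.Stmts

/-!
# Squad LKT, row WLF: walls of two inner links
-/

set_option autoImplicit false

namespace Pool.Agent.LKT.H47

open Pool.Agent.LCK

theorem hom_zero (x : Fin 8 → E3) (a : Fin 8) (ha : ¬(a = 0 ∨ a = 7)) : hom x a 0 = 1 := by
  show (if a = 0 ∨ a = 7 then (0 : ℝ) else 1) = 1
  rw [if_neg ha]

theorem meet (x : Fin 8 → E3) (a a' b b' : Fin 8) (ha : ¬(a = 0 ∨ a = 7))
    (ha' : ¬(a' = 0 ∨ a' = 7)) (hb : ¬(b = 0 ∨ b = 7)) (hb' : ¬(b' = 0 ∨ b' = 7))
    (p q r s : ℝ) (hp : 0 < p) (hq : 0 < q) (hr : 0 < r) (hs : 0 < s)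
    (h : ∀ i : Fin 4, p * hom x a i + q * hom x a' i = r * hom x b i + s * hom x b' i) :
    ¬ Disjoint (segment ℝ (x a) (x a')) (segment ℝ (x b) (x b')) := by
  intro hd
  have h0 := h 0
  rw [hom_zero x a ha, hom_zero x a' ha', hom_zero x b hb, hom_zero x b' hb', mul_one, mul_one,
    mul_one, mul_one] at h0
  have h1 : p * x a 0 + q * x a' 0 = r * x b 0 + s * x b' 0 := h 1
  have h2 : p * x a 1 + q * x a' 1 = r * x b 1 + s * x b' 1 := h 2
  have h3 : p * x a 2 + q * x a' 2 = r * x b 2 + s * x b' 2 := h 3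
  have hpq : 0 < p + q := add_pos hp hq
  have hrs : 0 < r + s := add_pos hr hs
  have e0 : p • x a + q • x a' = r • x b + s • x b' := by
    ext i
    fin_cases i
    · exact h1
    · exact h2
    · exact h3
  have e : (p / (p + q)) • x a + (q / (p + q)) • x a' =
      (r / (r + s)) • x b + (s / (r + s)) • x b' := by
    rw [← h0]
    have e1 : ∀ (t : ℝ) (y : E3), (t / (p + q)) • y = (p + q)⁻¹ • (t • y) := by
      intro t y
      rw [smul_smul, div_eq_mul_inv, mul_comm]
    rw [e1, e1, e1, e1, ← smul_add, ← smul_add, e0]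
  refine Set.disjoint_left.1 hd ⟨p / (p + q), q / (p + q), (div_pos hp hpq).le,
    (div_pos hq hpq).le, ?_, rfl⟩ ⟨r / (r + s), s / (r + s), (div_pos hr hrs).le,
    (div_pos hs hrs).le, ?_, e.symm⟩
  · rw [← add_div, div_self hpq.ne']
  · rw [← add_div, div_self hrs.ne']

theorem wall (crm : CrmStmt) (x : Fin 8 → E3) (a b c d e : Fin 8) (ha : ¬(a = 0 ∨ a = 7))
    (hb : ¬(b = 0 ∨ b = 7)) (hc : ¬(c = 0 ∨ c = 7)) (hd : ¬(d = 0 ∨ d = 7)) (σ : ℝ)
    (hA : 0 < σ * D x b c d e) (hB : 0 < -(σ * D x a c d e)) (hC : 0 < -(σ * D x a b d e))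
    (hE : 0 < σ * D x a b c e) (h0 : D x a b c d = 0) :
    ¬ Disjoint (segment ℝ (x a) (x b)) (segment ℝ (x c) (x d)) := by
  refine meet x a b c d ha hb hc hd _ _ _ _ hA hB hC hE fun i => ?_
  have h := crm.1 (hom x a) (hom x b) (hom x c) (hom x d) (hom x e) i
  have h0' : d4 (hom x a) (hom x b) (hom x c) (hom x d) = 0 := h0
  rw [h0', zero_mul, add_zero] at h
  unfold D
  linear_combination σ * h

theorem sw34 (crm : CrmStmt) (x : Fin 8 → E3) (a b c d : Fin 8) : D x a b d c = -D x a b c d :=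
  (crm.2.1 (hom x a) (hom x b) (hom x c) (hom x d)).2.2

theorem sw23 (crm : CrmStmt) (x : Fin 8 → E3) (a b c d : Fin 8) : D x a c b d = -D x a b c d :=
  (crm.2.1 (hom x a) (hom x b) (hom x c) (hom x d)).2.1

theorem sw12 (crm : CrmStmt) (x : Fin 8 → E3) (a b c d : Fin 8) : D x b a c d = -D x a b c d :=
  (crm.2.1 (hom x a) (hom x b) (hom x c) (hom x d)).1

theorem rot3 (crm : CrmStmt) (x : Fin 8 → E3) (a b c d : Fin 8) : D x a c d b = D x a b c d := by
  rw [sw34 crm x a c b d, sw23 crm x a b c d, neg_neg]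

theorem rot4 (crm : CrmStmt) (x : Fin 8 → E3) (a b c d : Fin 8) :
    D x b c d a = -D x a b c d := by
  rw [rot3 crm x b a c d, sw12 crm x a b c d]

theorem wlf (crm : CrmStmt) : WlfStmt := by
  intro x hx j hj hF h0
  have hdis := hx.1
  rcases hj with rfl | rfl | rfl
  · -- 1245
    have f44 := hF 44 (by norm_num) (by norm_num)
    have f38 := hF 38 (by norm_num) (by norm_num)
    have f31 := hF 31 (by norm_num) (by norm_num)
    have f30 := hF 30 (by norm_num) (by norm_num)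
    simp only [F, tb, Int.cast_neg, Int.cast_one, neg_mul, one_mul] at f44 f38 f31 f30 h0
    refine wall crm x 1 2 4 5 3 (by decide) (by decide) (by decide) (by decide) (-1) ?_ ?_ ?_ ?_
      (by linarith) (hdis 1 4 (by decide))
    · rw [rot3 crm x 2 3 4 5]; linarith
    · rw [rot3 crm x 1 3 4 5]; linarith
    · rw [sw34 crm x 1 2 3 5]; linarith
    · rw [sw34 crm x 1 2 3 4]; linarith
  · -- 2345
    have f38 := hF 38 (by norm_num) (by norm_num)
    have f34 := hF 34 (by norm_num) (by norm_num)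
    have f31 := hF 31 (by norm_num) (by norm_num)
    have f30 := hF 30 (by norm_num) (by norm_num)
    simp only [F, tb, Int.cast_neg, Int.cast_one, neg_mul, one_mul] at f34 f38 f31 f30 h0
    refine wall crm x 2 3 4 5 1 (by decide) (by decide) (by decide) (by decide) (-1) ?_ ?_ ?_ ?_
      (by linarith) (hdis 2 4 (by decide))
    · rw [rot4 crm x 1 3 4 5]; linarith
    · rw [rot4 crm x 1 2 4 5]; linarith
    · rw [rot4 crm x 1 2 3 5]; linarith
    · rw [rot4 crm x 1 2 3 4]; linarith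
  · -- 2356
    have f54 := hF 54 (by norm_num) (by norm_num)
    have f50 := hF 50 (by norm_num) (by norm_num)
    have f45 := hF 45 (by norm_num) (by norm_num)
    have f44 := hF 44 (by norm_num) (by norm_num)
    simp only [F, tb, Int.cast_neg, Int.cast_one, neg_mul, one_mul] at f54 f50 f45 f44 h0
    refine wall crm x 2 3 5 6 4 (by decide) (by decide) (by decide) (by decide) 1 ?_ ?_ ?_ ?_
      (by linarith) (hdis 2 5 (by decide))
    · rw [rot3 crm x 3 4 5 6]; linarith
    · rw [rot3 crm x 2 4 5 6]; linarith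
    · rw [sw34 crm x 2 3 4 6]; linarith
    · rw [sw34 crm x 2 3 4 5]; linarith

end Pool.Agent.LKT.H47
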